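import Mathlib
import Pool.Agent.W442.SN.Base
import Pool.Agent.W308.SV.Loc

/-!
# Project SN, part LOC2 : bounds for the dimension of the layers
-/

open MvPolynomial

namespace Pool.Agent.W880.SN

open Pool.Agent.W442.SV Pool.Agent.W442.SN Pool.Agent.W308.SV

section main

variable {σ : Type} (I : Ideal (MvPolynomial σ ℂ))

theorem ker_init (i : ℕ) (f : MvPolynomial σ ℂ) (hf : f.IsHomogeneous i) :
    phi I f ∈ (originIdeal σ).map (phi I) ^ (i + 1) ↔ Init I i f := by
  constructor
  · intro h
    obtain ⟨x, hx, s, hs, h⟩ := phi_mem_exists I (i + 1) f h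
    have hs0 : coeff 0 s ≠ 0 := fun h0 => hs ((mem_origin s).2 h0)
    refine ⟨hf, C (coeff 0 s)⁻¹ * ((s - C (coeff 0 s)) * f - x), ?_, ?_⟩
    · apply Ideal.mul_mem_left
      apply Ideal.sub_mem _ _ hx
      rw [pow_succ']
      apply Ideal.mul_mem_mul _ (homog_mem hf)
      rw [mem_origin, coeff_sub]
      simp
    · have e : f + C (coeff 0 s)⁻¹ * ((s - C (coeff 0 s)) * f - x) =
          C (coeff 0 s)⁻¹ * (s * f - x) := by
        have h1 : C (coeff 0 s)⁻¹ * C (coeff 0 s) = (1 : MvPolynomial σ ℂ) := by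
          rw [← C_mul, inv_mul_cancel₀ hs0, C_1]
        linear_combination (-f) * h1
      rw [e]
      exact Ideal.mul_mem_left _ _ h
  · rintro ⟨_, g, hg, h⟩
    have e2 : phi I f = phi I (f + g) - phi I g := by
      rw [map_add]; ring
    rw [e2, phi_of_mem I h, zero_sub]
    exact Ideal.neg_mem_iff _ |>.2 (phi_mem_pow I _ hg)

theorem psi_exists (i : ℕ) : ∃ psi : homogeneousSubmodule σ ℂ i →ₗ[ℂ] Layer (locMax I) i,
    Function.Surjective psi ∧ ∀ f, psi f = 0 ↔ Init I i f.1 := by
  let m := (originIdeal σ).map (phi I)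
  let L : MvPolynomial σ ℂ →ₗ[ℂ] LR I :=
    ((IsScalarTower.toAlgHom ℂ (MvPolynomial σ ℂ ⧸ I) (LR I)).comp
      (Ideal.Quotient.mkₐ ℂ I)).toLinearMap
  have hL : ∀ f, L f = phi I f := fun f => rfl
  let L1 : homogeneousSubmodule σ ℂ i →ₗ[ℂ] ↥(m ^ i) :=
    { toFun := fun f => ⟨L f.1, by rw [hL]; exact phi_mem_pow I i (homog_mem f.2)⟩
      map_add' := by intro a b; apply Subtype.ext; simp
      map_smul' := by intro a b; apply Subtype.ext; simp }
  let psi : homogeneousSubmodule σ ℂ i →ₗ[ℂ] Layer (locMax I) i :=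
    ((nextPow m i).mkQ.restrictScalars ℂ).comp L1
  refine ⟨psi, ?_, ?_⟩
  · intro z
    obtain ⟨⟨y, hy⟩, rfl⟩ := Submodule.Quotient.mk_surjective _ z
    obtain ⟨f, hf, h⟩ := surj_aux I i y hy
    refine ⟨⟨f, hf⟩, ?_⟩
    have h5 : (Submodule.Quotient.mk (⟨y, hy⟩ : ↥(m ^ i)) : ↥(m ^ i) ⧸ nextPow m i) =
        Submodule.Quotient.mk (L1 ⟨f, hf⟩) := by
      rw [Submodule.Quotient.eq]
      exact h
    exact h5.symm
  · intro f
    rw [← ker_init I i f.1 f.2]
    change Submodule.Quotient.mk (L1 f) = 0 ↔ _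
    rw [Submodule.Quotient.mk_eq_zero]
    rfl

theorem homog_finite [Fintype σ] (i : ℕ) : Module.Finite ℂ (homogeneousSubmodule σ ℂ i) := by
  have h1 : {s : σ →₀ ℕ | s.degree = i}.Finite :=
    (Finsupp.finite_of_degree_le i).subset fun s hs => le_of_eq hs
  have h2 : homogeneousSubmodule σ ℂ i =
      Submodule.span ℂ ((fun s => monomial s (1 : ℂ)) '' {s : σ →₀ ℕ | s.degree = i}) := by
    apply le_antisymm
    · intro f hf
      rw [f.as_sum]
      refine Submodule.sum_mem _ fun s hs => ?_
      have h3 : monomial s (coeff s f) = (coeff s f) • monomial s (1 : ℂ) := by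
        rw [smul_monomial, smul_eq_mul, mul_one]
      rw [h3]
      refine Submodule.smul_mem _ _ (Submodule.subset_span ⟨s, ?_, rfl⟩)
      by_contra hne
      exact (mem_support_iff.1 hs) (hf.coeff_eq_zero hne)
    · rw [Submodule.span_le]
      rintro _ ⟨s, hs, rfl⟩
      exact isHomogeneous_monomial _ hs
  rw [h2]
  exact Module.Finite.span_of_finite ℂ (h1.image _)

end main

theorem upper : S_upper := by
  classical
  intro σ _ _ I hI i N hN
  obtain ⟨psi, hs, hk⟩ := psi_exists I i
  obtain ⟨N', hN'⟩ : ∃ N' : Finset (σ →₀ ℕ), N' = N.filter fun s => s.degree = i := ⟨_, rfl⟩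
  have hmem : ∀ t, t ∈ N' ↔ t ∈ N ∧ t.degree = i := by
    intro t
    rw [hN', Finset.mem_filter]
  have hdeg : ∀ s : N', s.1.degree = i := fun s => ((hmem s.1).1 s.2).2
  let b : N' → Layer (locMax I) i := fun s =>
    psi ⟨monomial s.1 (1 : ℂ), isHomogeneous_monomial _ (hdeg s)⟩
  have hspan : ∀ z, z ∈ Submodule.span ℂ (Set.range b) := by
    -- monomials
    have h1 : ∀ f : homogeneousSubmodule σ ℂ i, (∀ t, coeff t f.1 ≠ 0 → t ∈ N) →
        psi f ∈ Submodule.span ℂ (Set.range b) := by
      intro f hf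
      have h2 : f = ∑ s : N', coeff s.1 f.1 •
          (⟨monomial s.1 (1 : ℂ), isHomogeneous_monomial _ (hdeg s)⟩ :
            homogeneousSubmodule σ ℂ i) := by
        apply Subtype.ext
        rw [AddSubmonoidClass.coe_finsetSum]
        ext t
        rw [coeff_sum]
        have h3 : ∀ s ∈ (Finset.univ : Finset N'), coeff t (((coeff s.1 f.1 •
            (⟨monomial s.1 (1 : ℂ), isHomogeneous_monomial _ (hdeg s)⟩ :
            homogeneousSubmodule σ ℂ i) : homogeneousSubmodule σ ℂ i) : MvPolynomial σ ℂ)) =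
            if s.1 = t then coeff t f.1 else 0 := by
          intro s _
          change coeff t (coeff s.1 f.1 • monomial s.1 (1 : ℂ)) = _
          rw [coeff_smul, coeff_monomial, smul_eq_mul]
          split_ifs with h4
          · rw [mul_one, h4]
          · rw [mul_zero]
        rw [Finset.sum_congr rfl h3]
        by_cases ht : coeff t f.1 = 0
        · rw [ht]
          simp
        · have h5 : t ∈ N' := by
            rw [hN', Finset.mem_filter]
            refine ⟨hf t ht, ?_⟩
            by_contra hne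
            exact ht (f.2.coeff_eq_zero hne)
          rw [Finset.sum_eq_single (⟨t, h5⟩ : N')]
          · rw [if_pos rfl]
          · intro s _ hst
            rw [if_neg fun h => hst (Subtype.ext h)]
          · intro h
            exact absurd (Finset.mem_univ _) h
      rw [h2, map_sum]
      refine Submodule.sum_mem _ fun s _ => ?_
      rw [map_smul]
      exact Submodule.smul_mem _ _ (Submodule.subset_span ⟨s, rfl⟩)
    have h2 : ∀ (s : σ →₀ ℕ) (hs : s.degree = i),
        psi ⟨monomial s (1 : ℂ), isHomogeneous_monomial _ hs⟩ ∈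
          Submodule.span ℂ (Set.range b) := by
      intro s hs
      obtain ⟨f, hf1, hf2⟩ := hN s hs
      have hfh : f.IsHomogeneous i := by
        have h3 := (isHomogeneous_monomial (1 : ℂ) hs).sub hf2.1
        rwa [sub_sub_cancel] at h3
      have h4 : psi (⟨monomial s (1 : ℂ), isHomogeneous_monomial _ hs⟩ - ⟨f, hfh⟩) = 0 := by
        rw [hk]
        exact hf2
      rw [map_sub, sub_eq_zero] at h4
      rw [h4]
      exact h1 ⟨f, hfh⟩ hf1
    intro z
    obtain ⟨f, rfl⟩ := hs z
    have hd : ∀ s : f.1.support, s.1.degree = i := by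
      intro s
      by_contra hne
      exact (mem_support_iff.1 s.2) (f.2.coeff_eq_zero hne)
    have h3 : f = ∑ s : f.1.support, coeff s.1 f.1 •
        (⟨monomial s.1 (1 : ℂ), isHomogeneous_monomial _ (hd s)⟩ :
          homogeneousSubmodule σ ℂ i) := by
      apply Subtype.ext
      rw [AddSubmonoidClass.coe_finsetSum]
      conv_lhs => rw [f.1.as_sum, ← Finset.sum_coe_sort]
      refine Finset.sum_congr rfl fun s _ => ?_
      change monomial s.1 (coeff s.1 f.1) = coeff s.1 f.1 • monomial s.1 (1 : ℂ)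
      rw [smul_monomial, smul_eq_mul, mul_one]
    rw [h3, map_sum]
    refine Submodule.sum_mem _ fun s _ => ?_
    rw [map_smul]
    exact Submodule.smul_mem _ _ (h2 _ (hd s))
  have htop : Submodule.span ℂ (Set.range b) = ⊤ := by
    rw [eq_top_iff]
    intro z _
    exact hspan z
  have h1 : Module.finrank ℂ (Layer (locMax I) i) ≤ Fintype.card N' := by
    rw [← finrank_top, ← htop]
    exact finrank_range_le_card b
  have h2 : Fintype.card N' ≤ N.card := by
    rw [Fintype.card_coe, hN']
    exact Finset.card_filter_le _ _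
  exact h1.trans h2

theorem lower : S_lower := by
  classical
  intro σ _ _ I hI i N hN h
  obtain ⟨psi, hs, hk⟩ := psi_exists I i
  have hfin : Module.Finite ℂ (Layer (locMax I) i) := by
    have := homog_finite (σ := σ) i
    exact Module.Finite.of_surjective psi hs
  let b : N → Layer (locMax I) i := fun s =>
    psi ⟨monomial s.1 (1 : ℂ), isHomogeneous_monomial _ (hN s.1 s.2)⟩
  have hli : LinearIndependent ℂ b := by
    rw [Fintype.linearIndependent_iff]
    intro c hc
    have h1 : psi (∑ s : N, c s • (⟨monomial s.1 (1 : ℂ),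
        isHomogeneous_monomial _ (hN s.1 s.2)⟩ : homogeneousSubmodule σ ℂ i)) = 0 := by
      rw [map_sum, ← hc]
      refine Finset.sum_congr rfl fun s _ => ?_
      rw [map_smul]
    rw [hk] at h1
    have h2 : ∀ t, coeff t ((∑ s : N, c s • (⟨monomial s.1 (1 : ℂ),
        isHomogeneous_monomial _ (hN s.1 s.2)⟩ : homogeneousSubmodule σ ℂ i) :
        homogeneousSubmodule σ ℂ i) : MvPolynomial σ ℂ) =
        ∑ s : N, if s.1 = t then c s else 0 := by
      intro t
      rw [AddSubmonoidClass.coe_finsetSum, coeff_sum]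
      refine Finset.sum_congr rfl fun s _ => ?_
      change coeff t (c s • monomial s.1 (1 : ℂ)) = _
      rw [coeff_smul, coeff_monomial, smul_eq_mul]
      split_ifs
      · rw [mul_one]
      · rw [mul_zero]
    have h3 := h _ (fun t ht => by
      by_contra htN
      apply ht
      rw [h2]
      refine Finset.sum_eq_zero fun s _ => ?_
      rw [if_neg]
      rintro rfl
      exact htN s.2) h1
    intro s
    have h4 := h2 s.1
    rw [h3, coeff_zero, Finset.sum_eq_single s] at h4
    · rw [if_pos rfl] at h4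
      exact h4.symm
    · intro s' _ hs'
      rw [if_neg fun h => hs' (Subtype.ext h)]
    · intro h
      exact absurd (Finset.mem_univ _) h
  have h1 := hli.fintype_card_le_finrank
  rw [Fintype.card_coe] at h1
  exact h1

theorem main : S_upper ∧ S_lower := ⟨upper, lower⟩

end Pool.Agent.W880.SN
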